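import Pool.Agent.W2helper15.WMP3

/-!
# The weak maximizing property for all ranges forces the domain to be finite-dimensional

`E` is a Banach space over `𝕜 = ℝ` or `ℂ`. The pair `(E, F)` has the weak maximizing property
(`HasWMP 𝕜 E F`) if every bounded operator `T : E → F` which has a maximizing sequence that is not
weakly null attains its norm.

If `(E, F)` has the weak maximizing property for every Banach space `F`, and even if this is only
assumed for the single space `F = ℓ_∞` (here `ℕ →ᵇ 𝕜`, the bounded scalar sequences with the
supremum norm), then `E` is finite-dimensional.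

Proof. Suppose `E` is infinite-dimensional. Operators of rank one show that every functional attains
its norm, so that `E` is reflexive by James' theorem, and there is a normalized sequence `g n` of
functionals with `g n → 0` pointwise. If `f n` are functionals of norm at most one with
`limsup |f n z| < 1` for every unit vector `z`, then `z ↦ ((1 - 1 / (n + 2)) f n z)` does not attain
its norm as soon as there are unit vectors `x n` with `|f n (x n)| → 1`; so all such sequences
`x n` are weakly null. Applied to the normalizations of `f + g n` this gives
`limsup ‖f + g n‖ ≤ max ‖f‖ 1` for every functional `f`. Hence some subsequence of `g n` has bounded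
partial sums. A weak* cluster point of these sums is at least `1 / 2` (in real part) at infinitely
many of the unit vectors `y n` with `g n (y n) → 1`, although the `y n` are weakly null.
-/

set_option autoImplicit false

namespace Pool.Agent.Results.MP_479f73_an.WMPFiniteDim

open Filter Topology Set
open scoped BoundedContinuousFunction
open Pool.Agent.W2helper15.WMP

universe u v

/-- If `E` is finite-dimensional, then `(E, F)` has the weak maximizing property. -/
theorem wmp_of_finiteDimensional {𝕜 : Type*} [RCLike 𝕜] {E F : Type*} [NormedAddCommGroup E]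
    [NormedSpace 𝕜 E] [NormedAddCommGroup F] [NormedSpace 𝕜 F] [FiniteDimensional 𝕜 E] :
    HasWMP 𝕜 E F := by
  rintro T ⟨x, hx1, hx2, -⟩
  have : ProperSpace E := FiniteDimensional.proper 𝕜 E
  obtain ⟨z, hz, φ, hφ1, hφ2⟩ := (isCompact_sphere (0 : E) 1).tendsto_subseq
    (x := x) (fun n => by simpa using hx1 n)
  refine ⟨z, by simpa using hz, ?_⟩
  have h1 : Tendsto (fun n => ‖T (x (φ n))‖) atTop (𝓝 ‖T z‖) :=
    ((T.continuous.tendsto z).comp hφ2).norm
  exact tendsto_nhds_unique h1 (hx2.comp hφ1.tendsto_atTop)

/-- **Theorem** (a positive answer to Q1). Let `E` be a Banach space over `𝕜 = ℝ` or `ℂ`. If `(E, F)`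
has the weak maximizing property for every Banach space `F`, then `E` is finite-dimensional. It even
suffices that `(E, ℓ_∞)` has the weak maximizing property. Both implications are equivalences. -/
theorem result (𝕜 : Type) [RCLike 𝕜] (E : Type u) [NormedAddCommGroup E] [NormedSpace 𝕜 E]
    [CompleteSpace E] :
    ((∀ (F : Type) [NormedAddCommGroup F] [NormedSpace 𝕜 F] [CompleteSpace F], HasWMP 𝕜 E F) ↔
      FiniteDimensional 𝕜 E) ∧
    (HasWMP 𝕜 E (ℕ →ᵇ 𝕜) ↔ FiniteDimensional 𝕜 E) := by
  refine ⟨⟨fun h => finiteDimensional_of_wmp (h (ℕ →ᵇ 𝕜)), fun h F _ _ _ => ?_⟩,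
    ⟨finiteDimensional_of_wmp, fun h => ?_⟩⟩
  · exact wmp_of_finiteDimensional
  · exact wmp_of_finiteDimensional

end Pool.Agent.Results.MP_479f73_an.WMPFiniteDim
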